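import Pool.Agent.W780.PG.Defs

set_option autoImplicit false

/-!
# Circumscribed polygons with given normal directions

`A : ℤ → ℝ` are the angles of the outer normals of the sides.
-/

namespace Pool.Agent.X174.Iso

open Complex Set
open Pool.Agent.W780.PG (IsConvexPolygon region ang lft)
open scoped Real ComplexConjugate

/-- admissible normal angles of an `(n + 3)`-gon -/
structure Adm (n : ℕ) (A : ℤ → ℝ) : Prop where
  mono : ∀ k, A k < A (k + 1)
  lt : ∀ k, A (k + 1) < A k + π
  per : ∀ k, A (k + (n + 3)) = A k + 2 * π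

/-- half of the exterior angle -/
noncomputable def hf (A : ℤ → ℝ) (k : ℤ) : ℝ := (A k - A (k - 1)) / 2

/-- the vertices -/
noncomputable def P (A : ℤ → ℝ) (k : ℤ) : ℂ :=
  cexp (A k * I) * (1 - Real.tan (hf A k) * I)

/-- the polygon -/
noncomputable def poly (n : ℕ) (A : ℤ → ℝ) (j : Fin (n + 3)) : ℂ := P A (j : ℕ)

variable {n : ℕ} {A : ℤ → ℝ}

theorem Adm.hf_pos (h : Adm n A) (k : ℤ) : 0 < hf A k := by
  have := h.mono (k - 1)
  rw [sub_add_cancel] at this
  unfold hf
  linarith

theorem Adm.hf_lt (h : Adm n A) (k : ℤ) : hf A k < π / 2 := by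
  have := h.lt (k - 1)
  rw [sub_add_cancel] at this
  unfold hf
  linarith

theorem Adm.cos_pos (h : Adm n A) (k : ℤ) : 0 < Real.cos (hf A k) :=
  Real.cos_pos_of_mem_Ioo ⟨by linarith [h.hf_pos k, Real.pi_pos], h.hf_lt k⟩

theorem Adm.tan_pos (h : Adm n A) (k : ℤ) : 0 < Real.tan (hf A k) :=
  Real.tan_pos_of_pos_of_lt_pi_div_two (h.hf_pos k) (h.hf_lt k)

/-- the two expressions of a vertex -/
theorem Adm.P_eq (h : Adm n A) (k : ℤ) :
    P A k = cexp (A (k - 1) * I) * (1 + Real.tan (hf A k) * I) := by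
  have hc : (Real.cos (hf A k) : ℂ) ≠ 0 := by exact_mod_cast (h.cos_pos k).ne'
  have e1 : (A k : ℂ) * I = A (k - 1) * I + (hf A k) * I + (hf A k) * I := by
    unfold hf; push_cast; ring
  have e2 : cexp ((hf A k : ℝ) * I) = (Real.cos (hf A k) : ℂ) * (1 + Real.tan (hf A k) * I) := by
    rw [Complex.exp_mul_I, Real.tan_eq_sin_div_cos]
    push_cast
    rw [← Complex.ofReal_cos, ← Complex.ofReal_sin]
    field_simp
  have e3 : cexp ((hf A k : ℝ) * I) * (1 - Real.tan (hf A k) * I) * Real.cos (hf A k) = 1 := by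
    rw [e2, Real.tan_eq_sin_div_cos]
    have h1 : (Real.cos (hf A k) : ℂ) ^ 2 + (Real.sin (hf A k) : ℂ) ^ 2 = 1 := by
      exact_mod_cast Real.cos_sq_add_sin_sq (hf A k)
    push_cast at h1 hc ⊢
    field_simp
    linear_combination h1 - (Complex.sin (hf A k : ℂ)) ^ 2 * (I_sq)
  unfold P
  rw [e1, Complex.exp_add, Complex.exp_add]
  have e4 : cexp ((hf A k : ℝ) * I) * (cexp ((hf A k : ℝ) * I) * (1 - Real.tan (hf A k) * I)) =
      1 + Real.tan (hf A k) * I := by
    have : (Real.cos (hf A k) : ℂ) * (cexp ((hf A k : ℝ) * I) * (cexp ((hf A k : ℝ) * I) *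
        (1 - Real.tan (hf A k) * I))) = Real.cos (hf A k) * (1 + Real.tan (hf A k) * I) := by
      rw [← e2]
      linear_combination cexp ((hf A k : ℝ) * I) * e3
    exact mul_left_cancel₀ hc this
  rw [← e4]
  ring

/-- the length of a side -/
noncomputable def len (A : ℤ → ℝ) (k : ℤ) : ℝ := Real.tan (hf A k) + Real.tan (hf A (k + 1))

theorem Adm.len_pos (h : Adm n A) (k : ℤ) : 0 < len A k := add_pos (h.tan_pos k) (h.tan_pos _)

theorem Adm.sub_eq (h : Adm n A) (k : ℤ) : P A (k + 1) - P A k = cexp (A k * I) * (len A k * I) := by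
  rw [h.P_eq (k + 1), add_sub_cancel_right]
  unfold P len
  push_cast
  ring

theorem Adm.norm_sub (h : Adm n A) (k : ℤ) : ‖P A (k + 1) - P A k‖ = len A k := by
  rw [h.sub_eq, norm_mul, Complex.norm_exp_ofReal_mul_I, norm_mul, Complex.norm_I,
    Complex.norm_real, Real.norm_of_nonneg (h.len_pos k).le]
  ring

theorem P_per (h : Adm n A) (k : ℤ) : P A (k + (n + 3)) = P A k := by
  have h1 := h.per k
  have h2 := h.per (k - 1)
  unfold P hf
  rw [show k + ((n : ℤ) + 3) - 1 = k - 1 + (n + 3) by ring, h1, h2]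
  have : cexp (((A k + 2 * π : ℝ) : ℂ) * I) = cexp (A k * I) := by
    push_cast
    rw [add_mul, Complex.exp_add, Complex.exp_two_pi_mul_I, mul_one]
  rw [this, show A k + 2 * π - (A (k - 1) + 2 * π) = A k - A (k - 1) by ring]

theorem poly_succ (h : Adm n A) (j : Fin (n + 3)) : poly n A (j + 1) = P A ((j : ℕ) + 1) := by
  unfold poly
  have h1 : ((j + 1 : Fin (n + 3)) : ℕ) = ((j : ℕ) + 1) % (n + 3) := by
    rw [Fin.val_add]
    congr 1
  rw [h1]
  by_cases hj : (j : ℕ) + 1 < n + 3
  · rw [Nat.mod_eq_of_lt hj]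
    push_cast
    rfl
  · have hj' : (j : ℕ) + 1 = n + 3 := by have := j.isLt; omega
    rw [hj', Nat.mod_self]
    have h2 := P_per h 0
    have h3 : ((j : ℕ) : ℤ) + 1 = 0 + (n + 3) := by
      have : (((j : ℕ) + 1 : ℕ) : ℤ) = ((n + 3 : ℕ) : ℤ) := by rw [hj']
      push_cast at this
      linarith
    rw [h3, h2]
    simp

theorem poly_pred (h : Adm n A) (j : Fin (n + 3)) : poly n A (j - 1) = P A ((j : ℕ) - 1) := by
  obtain ⟨i, rfl⟩ : ∃ i : Fin (n + 3), i + 1 = j := ⟨j - 1, sub_add_cancel _ _⟩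
  rw [add_sub_cancel_right]
  have h1 : ((i + 1 : Fin (n + 3)) : ℕ) = ((i : ℕ) + 1) % (n + 3) := by
    rw [Fin.val_add]
    congr 1
  rw [h1]
  unfold poly
  by_cases hj : (i : ℕ) + 1 < n + 3
  · rw [Nat.mod_eq_of_lt hj]
    push_cast
    rw [add_sub_cancel_right]
  · have hj' : (i : ℕ) + 1 = n + 3 := by have := i.isLt; omega
    rw [hj', Nat.mod_self]
    have h2 := P_per h (-1)
    have h3 : ((i : ℕ) : ℤ) = -1 + (n + 3) := by
      have : (((i : ℕ) + 1 : ℕ) : ℤ) = ((n + 3 : ℕ) : ℤ) := by rw [hj']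
      push_cast at this
      linarith
    rw [h3, h2]
    simp

theorem Adm.lft_eq (h : Adm n A) (k : ℤ) (z : ℂ) :
    lft (P A k) (P A (k + 1)) z = len A k * (1 - (cexp (-(A k * I)) * z).re) := by
  unfold lft
  rw [h.sub_eq, map_mul, map_mul, ← Complex.exp_conj, map_mul, conj_I, conj_ofReal, conj_ofReal,
    mul_sub]
  have e1 : cexp (A k * -I) * (len A k * -I) * P A k =
      -(len A k * I) - len A k * Real.tan (hf A k) := by
    unfold P
    rw [show (A k : ℂ) * -I = -(A k * I) by ring, Complex.exp_neg]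
    have : cexp (A k * I) ≠ 0 := Complex.exp_ne_zero _
    field_simp
    linear_combination (len A k : ℂ) * (Real.tan (hf A k) : ℂ) * I_sq
  rw [e1, show cexp (A k * -I) * (len A k * -I) * z =
    ((len A k : ℝ) : ℂ) * (-I * (cexp (-(A k * I)) * z)) by
      rw [show (A k : ℂ) * -I = -(A k * I) by ring]; ring]
  rw [sub_im, im_ofReal_mul]
  simp only [sub_im, neg_im, mul_im, ofReal_re, ofReal_im, I_re, I_im, mul_zero, mul_one,
    zero_mul, add_zero, zero_add, neg_mul, mul_re, sub_zero]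
  ring

theorem Adm.re_eq (h : Adm n A) (i j : ℤ) : 1 - (cexp (-(A i * I)) * P A j).re =
    2 * Real.sin ((A j - A i) / 2) * Real.sin ((A (j - 1) - A i) / 2) / Real.cos (hf A j) := by
  have hc := (h.cos_pos j).ne'
  have e1 : cexp (-(A i * I)) * P A j = cexp (((A j - A i : ℝ) : ℂ) * I) *
      (1 - Real.tan (hf A j) * I) := by
    unfold P
    rw [← mul_assoc, ← Complex.exp_add]
    congr 2
    push_cast
    ring
  rw [e1, Complex.exp_mul_I, ← Complex.ofReal_cos, ← Complex.ofReal_sin]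
  have e2 : (((Real.cos (A j - A i) : ℝ) : ℂ) + ((Real.sin (A j - A i) : ℝ) : ℂ) * I) *
      (1 - Real.tan (hf A j) * I) =
      ((Real.cos (A j - A i) + Real.sin (A j - A i) * Real.tan (hf A j) : ℝ) : ℂ) +
      ((Real.sin (A j - A i) - Real.cos (A j - A i) * Real.tan (hf A j) : ℝ) : ℂ) * I := by
    push_cast
    linear_combination -(Complex.sin (A j - A i) * Complex.tan (hf A j)) * I_sq
  rw [e2, add_re, ofReal_re, re_ofReal_mul, I_re, mul_zero, add_zero, Real.tan_eq_sin_div_cos]
  have e3 : 2 * Real.sin ((A j - A i) / 2) * Real.sin ((A (j - 1) - A i) / 2) =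
      Real.cos (hf A j) - Real.cos ((A j - A i) - hf A j) := by
    rw [Real.cos_sub_cos]
    have a1 : (hf A j + (A j - A i - hf A j)) / 2 = (A j - A i) / 2 := by ring
    have a2 : (hf A j - (A j - A i - hf A j)) / 2 = -((A (j - 1) - A i) / 2) := by
      unfold hf; ring
    rw [a1, a2, Real.sin_neg]
    ring
  rw [e3, Real.cos_sub (A j - A i) (hf A j)]
  field_simp

theorem Adm.strict (h : Adm n A) : StrictMono A := strictMono_int_of_lt_succ h.mono

theorem Adm.pos (h : Adm n A) {i j : ℤ} (h1 : i + 1 < j) (h2 : j < i + (n + 3)) :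
    0 < lft (P A i) (P A (i + 1)) (P A j) := by
  rw [h.lft_eq, h.re_eq]
  have a1 : A i < A j := h.strict (by linarith)
  have a2 : A i < A (j - 1) := h.strict (by linarith)
  have a3 : A j < A i + 2 * π := by rw [← h.per]; exact h.strict h2
  have a4 : A (j - 1) < A i + 2 * π := by rw [← h.per]; exact h.strict (by linarith)
  have s1 : 0 < Real.sin ((A j - A i) / 2) :=
    Real.sin_pos_of_pos_of_lt_pi (by linarith) (by linarith)
  have s2 : 0 < Real.sin ((A (j - 1) - A i) / 2) :=
    Real.sin_pos_of_pos_of_lt_pi (by linarith) (by linarith)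
  have := h.cos_pos j
  have := h.len_pos i
  positivity

theorem Adm.convex (h : Adm n A) : IsConvexPolygon (poly n A) := by
  constructor
  intro i j hj hj1
  rw [poly_succ h]
  have hi := i.isLt
  have hjl := j.isLt
  have hij : (j : ℕ) ≠ (i : ℕ) := fun e => hj (Fin.ext e)
  have hij1 : (j : ℕ) ≠ ((i : ℕ) + 1) % (n + 3) := by
    intro e
    refine hj1 (Fin.ext ?_)
    rw [e, Fin.val_add]
    congr 1
  unfold poly
  rcases lt_or_gt_of_ne hij with e | e
  · have hlow : ¬ ((i : ℕ) = n + 2 ∧ (j : ℕ) = 0) := by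
      rintro ⟨ha, hb⟩
      rw [ha, hb] at hij1
      exact hij1 (by rw [show n + 2 + 1 = n + 3 by rfl, Nat.mod_self])
    rw [← P_per h ((j : ℕ) : ℤ)]
    exact h.pos (by omega) (by omega)
  · have h2 : (j : ℕ) ≠ (i : ℕ) + 1 := by
      intro h0
      rw [Nat.mod_eq_of_lt (by omega)] at hij1
      exact hij1 h0
    exact h.pos (by omega) (by omega)

theorem Adm.lft_zero (h : Adm n A) (i : Fin (n + 3)) :
    lft (poly n A i) (poly n A (i + 1)) 0 = 1 * ‖poly n A (i + 1) - poly n A i‖ := by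
  rw [poly_succ h]
  unfold poly
  rw [h.lft_eq, h.norm_sub]
  simp

theorem Adm.ang_eq (h : Adm n A) (i : Fin (n + 3)) :
    ang (poly n A) i = π - (A (i : ℕ) - A ((i : ℕ) - 1)) := by
  unfold ang EuclideanGeometry.angle
  rw [poly_succ h, poly_pred h]
  unfold poly
  set k : ℤ := ((i : ℕ) : ℤ)
  have e0 := h.sub_eq k
  have e1 := h.sub_eq (k - 1)
  rw [sub_add_cancel] at e1
  have e2 : P A (k - 1) - P A k = -(cexp (A (k - 1) * I) * (len A (k - 1) * I)) := by
    rw [← e1]; ring
  rw [vsub_eq_sub, vsub_eq_sub, e0, e2, InnerProductGeometry.angle_neg_left]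
  congr 1
  have l0 := h.len_pos k
  have l1 := h.len_pos (k - 1)
  have f1 : cexp (A (k - 1) * I) * (len A (k - 1) * I) = (len A (k - 1) : ℝ) •
      (cexp (A (k - 1) * I) * I) := by
    rw [Complex.real_smul]; ring
  have f2 : cexp (A k * I) * (len A k * I) = (len A k : ℝ) • (cexp (A k * I) * I) := by
    rw [Complex.real_smul]; ring
  rw [f1, f2, InnerProductGeometry.angle_smul_left_of_pos _ _ l1,
    InnerProductGeometry.angle_smul_right_of_pos _ _ l0]
  unfold InnerProductGeometry.angle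
  have g1 : ‖cexp (A (k - 1) * I) * I‖ = 1 := by
    rw [norm_mul, Complex.norm_exp_ofReal_mul_I, Complex.norm_I, one_mul]
  have g2 : ‖cexp (A k * I) * I‖ = 1 := by
    rw [norm_mul, Complex.norm_exp_ofReal_mul_I, Complex.norm_I, one_mul]
  have g3 : inner ℝ (cexp (A (k - 1) * I) * I) (cexp (A k * I) * I) =
      Real.cos (A k - A (k - 1)) := by
    rw [Complex.inner, map_mul, ← Complex.exp_conj, map_mul, conj_I, conj_ofReal]
    have : cexp (A k * I) * I * (cexp (A (k - 1) * -I) * -I) =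
        cexp (((A k - A (k - 1) : ℝ) : ℂ) * I) := by
      rw [show cexp (A k * I) * I * (cexp (A (k - 1) * -I) * -I) =
        (cexp (A (k - 1) * -I) * cexp (A k * I)) * (-(I ^ 2)) by ring, I_sq, neg_neg, mul_one,
        ← Complex.exp_add]
      congr 1
      push_cast
      ring
    rw [this, Complex.exp_ofReal_mul_I_re]
  rw [g1, g2, g3, mul_one, div_one, Real.arccos_cos]
  · have := h.mono (k - 1)
    rw [sub_add_cancel] at this
    linarith
  · have := h.lt (k - 1)
    rw [sub_add_cancel] at this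
    linarith

/-- the normal angles: all exterior angles but one are `β` -/
noncomputable def AA (n : ℕ) (β : ℝ) (k : ℤ) : ℝ :=
  (k / (n + 3) : ℤ) * (2 * π) + (k % (n + 3) : ℤ) * β

theorem AA_sub (n : ℕ) (β : ℝ) (k : ℤ) : AA n β (k + 1) - AA n β k =
    if k % (n + 3) = n + 2 then 2 * π - (n + 2) * β else β := by
  have hN : (0 : ℤ) < n + 3 := by positivity
  have h1 := Int.emod_nonneg k hN.ne'
  have h2 := Int.emod_lt_of_pos k hN
  have h3 := Int.mul_ediv_add_emod k (n + 3)
  set r := k % ((n : ℤ) + 3) with hr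
  set q := k / ((n : ℤ) + 3) with hq
  unfold AA
  rw [← hr, ← hq]
  split_ifs with h
  · have e1 : (k + 1) / ((n : ℤ) + 3) = q + 1 := by
      rw [show k + 1 = ((n : ℤ) + 3) * (q + 1) by rw [← h3, h]; ring]
      exact Int.mul_ediv_cancel_left _ hN.ne'
    have e2 : (k + 1) % ((n : ℤ) + 3) = 0 := by
      rw [show k + 1 = ((n : ℤ) + 3) * (q + 1) by rw [← h3, h]; ring]
      exact Int.mul_emod_right _ _
    rw [e1, e2, h]
    push_cast
    ring
  · have h4 : r + 1 < n + 3 := by omega
    have e1 : (k + 1) / ((n : ℤ) + 3) = q := by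
      rw [show k + 1 = r + 1 + ((n : ℤ) + 3) * q by rw [← h3]; ring,
        Int.add_mul_ediv_left _ _ hN.ne', Int.ediv_eq_zero_of_lt (by omega) h4, zero_add]
    have e2 : (k + 1) % ((n : ℤ) + 3) = r + 1 := by
      rw [show k + 1 = r + 1 + ((n : ℤ) + 3) * q by rw [← h3]; ring,
        Int.add_mul_emod_self_left, Int.emod_eq_of_lt (by omega) h4]
    rw [e1, e2]
    push_cast
    ring

theorem AA_adm {n : ℕ} {β : ℝ} (h0 : 0 < β) (h1 : β < π) (h2 : 0 < 2 * π - (n + 2) * β)
    (h3 : 2 * π - (n + 2) * β < π) : Adm n (AA n β) := by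
  refine ⟨fun k => ?_, fun k => ?_, fun k => ?_⟩
  · have := AA_sub n β k
    split_ifs at this <;> linarith
  · have := AA_sub n β k
    split_ifs at this <;> linarith
  · have hN : (0 : ℤ) < n + 3 := by positivity
    unfold AA
    rw [Int.add_emod_right, Int.add_ediv_of_dvd_right (dvd_refl _), Int.ediv_self hN.ne']
    push_cast
    ring

/-- **Existence.** -/
theorem exists_poly {n : ℕ} {β : ℝ} (h0 : 0 < β) (h1 : β < π) (h2 : 0 < 2 * π - (n + 2) * β)
    (h3 : 2 * π - (n + 2) * β < π) : ∃ p : Fin (n + 3) → ℂ, IsConvexPolygon p ∧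
      (∀ i, lft (p i) (p (i + 1)) 0 = 1 * ‖p (i + 1) - p i‖) ∧
      (∀ j, j ≠ 0 → ang p j = π - β) ∧ ang p 0 = π - (2 * π - (n + 2) * β) := by
  have h := AA_adm h0 h1 h2 h3
  refine ⟨poly n (AA n β), h.convex, h.lft_zero, fun j hj => ?_, ?_⟩
  · rw [h.ang_eq]
    have := AA_sub n β (((j : ℕ) : ℤ) - 1)
    rw [sub_add_cancel] at this
    rw [this, if_neg]
    have hj0 : (j : ℕ) ≠ 0 := fun e => hj (Fin.ext e)
    have hjl := j.isLt
    rw [Int.emod_eq_of_lt (by omega) (by omega)]
    omega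
  · rw [h.ang_eq]
    have := AA_sub n β (-1)
    rw [show (-1 : ℤ) + 1 = 0 by norm_num] at this
    have e : ((((0 : Fin (n + 3)) : ℕ) : ℤ)) = 0 := by simp
    rw [e, zero_sub, this, if_pos]
    rw [show (-1 : ℤ) = (n + 2) + (n + 3) * (-1) by ring, Int.add_mul_emod_self_left,
      Int.emod_eq_of_lt (by positivity) (by omega)]

/-- the isoperimetric quotient -/
noncomputable def G (n : ℕ) (β : ℝ) : ℝ :=
  (n + 2) * Real.tan (β / 2) + Real.tan ((2 * π - (n + 2) * β) / 2)

theorem tan_lt {x y : ℝ} (h0 : 0 ≤ x) (h1 : x < y) (h2 : y < π / 2) : Real.tan x < Real.tan y :=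
  Real.tan_lt_tan_of_lt_of_lt_pi_div_two (by linarith [Real.pi_pos]) h2 h1

/-- `N tan (π / N) → π` -/
theorem tendsto_reg : Filter.Tendsto (fun n : ℕ => ((n : ℝ) + 3) * Real.tan (π / (n + 3)))
    Filter.atTop (nhds π) := by
  have h1 : Filter.Tendsto (fun n : ℕ => π / ((n : ℝ) + 3)) Filter.atTop (nhdsWithin 0 {0}ᶜ) := by
    refine tendsto_nhdsWithin_iff.2 ⟨?_, Filter.Eventually.of_forall fun n => ?_⟩
    · exact tendsto_const_nhds.div_atTop
        (Filter.tendsto_atTop_add_const_right _ _ tendsto_natCast_atTop_atTop)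
    · simp only [mem_compl_iff, mem_singleton_iff]
      positivity
  have h2 : HasDerivAt Real.tan 1 0 := by
    have := Real.hasDerivAt_tan (x := 0) (by simp)
    simpa using this
  have h3 := (hasDerivAt_iff_tendsto_slope.1 h2).comp h1
  have h4 := h3.const_mul π
  rw [mul_one] at h4
  refine h4.congr fun n => ?_
  have h5 : ((n : ℝ) + 3) ≠ 0 := by positivity
  simp only [Function.comp, slope_def_field, Real.tan_zero, sub_zero]
  have := Real.pi_pos
  field_simp

/-- **All quotients.** -/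
theorem exists_quot {F : ℝ} (hF : π < F) : ∃ (n : ℕ) (β : ℝ), 0 < 2 * π - (n + 2) * β ∧
    2 * π - (n + 2) * β ≤ β ∧ β < π ∧ G n β = F := by
  classical
  have hπ := Real.pi_pos
  have hex : ∃ n : ℕ, ((n : ℝ) + 3) * Real.tan (π / (n + 3)) ≤ F :=
    ((tendsto_reg.eventually (gt_mem_nhds hF)).exists).imp fun n h => h.le
  set n := Nat.find hex with hn
  have h1 : ((n : ℝ) + 3) * Real.tan (π / (n + 3)) ≤ F := Nat.find_spec hex
  have hn3 : (0 : ℝ) < n + 3 := by positivity
  have hn2 : (0 : ℝ) < n + 2 := by positivity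
  set a : ℝ := 2 * π / (n + 3) with ha
  have ha0 : 0 < a := by positivity
  have han : (n + 3) * a = 2 * π := by rw [ha]; field_simp
  have hGa : G n a = ((n : ℝ) + 3) * Real.tan (π / (n + 3)) := by
    unfold G
    rw [show 2 * π - (n + 2) * a = a by linarith, show a / 2 = π / (n + 3) by rw [ha]; ring]
    ring
  -- continuity
  have hcont : ∀ b : ℝ, b < π → (n + 2) * b ≤ 2 * π → ContinuousOn (G n) (Icc a b) := by
    intro b hb hb2
    unfold G
    refine ContinuousOn.add (continuousOn_const.mul ?_) ?_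
    · refine Real.continuousOn_tan_Ioo.comp (by fun_prop) fun x hx => ?_
      exact ⟨by linarith [hx.1], by linarith [hx.2]⟩
    · refine Real.continuousOn_tan_Ioo.comp (by fun_prop) fun x hx => ?_
      have h5 : (n + 2) * x ≤ (n + 2) * b := mul_le_mul_of_nonneg_left hx.2 hn2.le
      have h6 : (n + 2) * a ≤ (n + 2) * x := mul_le_mul_of_nonneg_left hx.1 hn2.le
      refine ⟨by linarith, ?_⟩
      have h7 : a < π := by
        have : 3 * a ≤ (n + 3) * a := mul_le_mul_of_nonneg_right (by linarith [(Nat.cast_nonneg n : (0:ℝ) ≤ n)]) ha0.le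
        linarith
      linarith
  -- an upper end
  have hup : ∃ b : ℝ, a ≤ b ∧ b < π ∧ (n + 2) * b ≤ 2 * π ∧ F ≤ G n b ∧
      ((n + 2) * b = 2 * π → F < G n b) := by
    rcases Nat.eq_zero_or_pos n with h0 | h0
    · have h5 : Filter.Tendsto (fun x : ℝ => Real.tan (x / 2)) (nhdsWithin π (Iio π)) Filter.atTop := by
        have h6 : Filter.Tendsto (fun x : ℝ => x / 2) (nhdsWithin π (Iio π))
            (nhdsWithin (π / 2) (Iio (π / 2))) := by
          refine tendsto_nhdsWithin_iff.2 ⟨?_, ?_⟩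
          · exact ((continuous_id.div_const 2).tendsto π).mono_left nhdsWithin_le_nhds
          · filter_upwards [self_mem_nhdsWithin] with x hx
            simp only [mem_Iio] at hx ⊢
            linarith
        exact Real.tendsto_tan_pi_div_two.comp h6
      have h7 : a < π := by rw [ha, h0]; push_cast; linarith
      obtain ⟨b, hb1, hb2⟩ := ((h5.eventually (Filter.eventually_ge_atTop F)).and
        (Ioo_mem_nhdsLT h7)).exists
      have hn0 : (n : ℝ) = 0 := by rw [h0]; simp
      refine ⟨b, hb2.1.le, hb2.2, by rw [hn0]; linarith [hb2.2], ?_, ?_⟩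
      · unfold G
        rw [hn0]
        have h8 : 0 < Real.tan ((2 * π - (0 + 2) * b) / 2) :=
          Real.tan_pos_of_pos_of_lt_pi_div_two (by linarith [hb2.2]) (by
            have := hb2.1
            rw [ha, hn0] at this
            linarith)
        have h9 : 0 < Real.tan (b / 2) :=
          Real.tan_pos_of_pos_of_lt_pi_div_two (by linarith [hb2.1]) (by linarith [hb2.2])
        linarith
      · intro h10
        rw [hn0] at h10
        linarith [hb2.2]
    · have h2 : F < ((n : ℝ) + 2) * Real.tan (π / (n + 2)) := by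
        have h3 : n - 1 < Nat.find hex := by omega
        have h4 := Nat.find_min hex h3
        have h5 : ((n - 1 : ℕ) : ℝ) = n - 1 := by
          rw [Nat.cast_sub h0]; simp
        rw [h5] at h4
        push Not at h4
        rw [show (n : ℝ) - 1 + 3 = n + 2 by ring] at h4
        exact h4
      have hn1 : (1 : ℝ) ≤ n := by exact_mod_cast h0
      refine ⟨2 * π / (n + 2), ?_, ?_, ?_, ?_, ?_⟩
      · rw [ha]
        exact div_le_div_of_nonneg_left (by positivity) hn2 (by linarith)
      · rw [div_lt_iff₀ hn2]; nlinarith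
      · rw [mul_div_cancel₀ _ hn2.ne']
      · unfold G
        rw [mul_div_cancel₀ _ hn2.ne', sub_self, zero_div, Real.tan_zero, add_zero,
          show 2 * π / ((n : ℝ) + 2) / 2 = π / (n + 2) by ring]
        exact h2.le
      · intro _
        unfold G
        rw [mul_div_cancel₀ _ hn2.ne', sub_self, zero_div, Real.tan_zero, add_zero,
          show 2 * π / ((n : ℝ) + 2) / 2 = π / (n + 2) by ring]
        exact h2
  obtain ⟨b, hab, hbπ, hb2, hFb, hstr⟩ := hup
  obtain ⟨β, hβ, hβF⟩ := intermediate_value_Icc hab (hcont b hbπ hb2) ⟨hGa ▸ h1, hFb⟩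
  have h5 : (n + 2) * β ≤ (n + 2) * b := mul_le_mul_of_nonneg_left hβ.2 hn2.le
  have h6 : (n + 2) * a ≤ (n + 2) * β := mul_le_mul_of_nonneg_left hβ.1 hn2.le
  refine ⟨n, β, ?_, ?_, lt_of_le_of_lt hβ.2 hbπ, hβF⟩
  · rcases lt_or_eq_of_le (h5.trans hb2) with h7 | h7
    · linarith
    · have h8 : (n + 2) * b = 2 * π := le_antisymm hb2 (h7 ▸ h5)
      have h9 : β = b := mul_left_cancel₀ hn2.ne' (h7.trans h8.symm)
      have h10 := hstr h8
      rw [← h9, hβF] at h10
      exact absurd h10 (lt_irrefl _)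
  · linarith [hβ.1]

end Pool.Agent.X174.Iso
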