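import Pool.Agent.W780.PG.Defs

set_option autoImplicit false

/-!
# Triangles have an inscribed circle; isosceles triangles
-/

namespace Pool.Agent.X174.Iso

open Complex Set
open Pool.Agent.W780.PG (IsConvexPolygon region ang lft)
open scoped Real ComplexConjugate

theorem lft_re_im (a b z : ℂ) :
    lft a b z = (b.re - a.re) * (z.im - a.im) - (b.im - a.im) * (z.re - a.re) := by
  unfold lft
  simp only [mul_im, conj_re, conj_im, sub_re, sub_im]
  ring

/-- every triangle has an inscribed circle -/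
theorem circ_tri (p : Fin (0 + 3) → ℂ) (hp : IsConvexPolygon p) :
    ∃ (o : ℂ) (r : ℝ), 0 < r ∧ ∀ i, lft (p i) (p (i + 1)) o = r * ‖p (i + 1) - p i‖ := by
  have hD : 0 < lft (p 0) (p 1) (p 2) := hp.pos 0 2 (by decide) (by decide)
  have h01 : p 1 - p 0 ≠ 0 := by
    intro h
    rw [sub_eq_zero] at h
    rw [h] at hD
    unfold lft at hD
    simp at hD
  obtain ⟨a, ha⟩ : ∃ a, a = ‖p 1 - p 0‖ := ⟨_, rfl⟩
  obtain ⟨b, hb⟩ : ∃ b, b = ‖p 2 - p 1‖ := ⟨_, rfl⟩
  obtain ⟨c, hc⟩ : ∃ c, c = ‖p 0 - p 2‖ := ⟨_, rfl⟩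
  have ha0 : 0 < a := by rw [ha]; exact norm_pos_iff.2 h01
  have hb0 : 0 ≤ b := by rw [hb]; exact norm_nonneg _
  have hc0 : 0 ≤ c := by rw [hc]; exact norm_nonneg _
  have hs : 0 < a + b + c := by linarith
  refine ⟨⟨(a * (p 2).re + b * (p 0).re + c * (p 1).re) / (a + b + c),
    (a * (p 2).im + b * (p 0).im + c * (p 1).im) / (a + b + c)⟩,
    lft (p 0) (p 1) (p 2) / (a + b + c), div_pos hD hs, fun i => ?_⟩
  fin_cases i
  · change lft (p 0) (p 1) _ = _ * ‖p 1 - p 0‖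
    rw [← ha, lft_re_im, lft_re_im]
    field_simp
    ring
  · change lft (p 1) (p 2) _ = _ * ‖p 2 - p 1‖
    rw [← hb, lft_re_im, lft_re_im]
    field_simp
    ring
  · change lft (p 2) (p 0) _ = _ * ‖p 0 - p 2‖
    rw [← hc, lft_re_im, lft_re_im]
    field_simp
    ring

/-- the angles of an isosceles triangle -/
theorem iso_tri (p : Fin (0 + 3) → ℂ) (hp : IsConvexPolygon p)
    (h : ‖p 1 - p 0‖ = ‖p 2 - p 0‖) (h3 : π / 3 ≤ ang p 0) :
    (∀ j, j ≠ 0 → ang p j = ang p 1) ∧ ang p 1 ≤ ang p 0 := by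
  have hD : 0 < lft (p 0) (p 1) (p 2) := hp.pos 0 2 (by decide) (by decide)
  have h01 : p 1 ≠ p 0 := by
    intro h
    rw [h] at hD
    unfold lft at hD
    simp at hD
  have h02 : p 2 ≠ p 0 := by
    intro h
    rw [h] at hD
    unfold lft at hD
    simp at hD
  have e0 : ang p 0 = EuclideanGeometry.angle (p 2) (p 0) (p 1) := rfl
  have e1 : ang p 1 = EuclideanGeometry.angle (p 0) (p 1) (p 2) := rfl
  have e2 : ang p 2 = EuclideanGeometry.angle (p 1) (p 2) (p 0) := rfl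
  have hd : dist (p 0) (p 1) = dist (p 0) (p 2) := by
    rw [dist_comm, dist_comm (p 0) (p 2), dist_eq_norm, dist_eq_norm]
    exact h
  have h12 : ang p 1 = ang p 2 := by
    rw [e1, e2, EuclideanGeometry.angle_comm (p 1) (p 2) (p 0)]
    exact EuclideanGeometry.angle_eq_angle_of_dist_eq hd
  have hsum : ang p 1 + ang p 2 + ang p 0 = π := by
    rw [e0, e1, e2]
    exact EuclideanGeometry.angle_add_angle_add_angle_eq_pi (p 2) h01
  refine ⟨fun j hj => ?_, by linarith⟩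
  fin_cases j
  · exact absurd rfl hj
  · rfl
  · exact h12.symm

end Pool.Agent.X174.Iso
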